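import Pool.Agent.D0H85.SX.CoefA
import Pool.Agent.D0H82.SX.Stm

set_option autoImplicit false

/-! Project SX, module COEF: the coefficients of the characters on the box. -/

namespace Pool.Agent.D0H85.SX

open Complex Filter Topology MeasureTheory Set
open scoped ComplexConjugate
open Pool.Agent.TH612.CF Pool.Agent.TH612.GS
open Pool.Agent.W182.KO hiding ee SS_summable DD
open Pool.Agent.D0H82.SX

noncomputable section

variable {k : ℕ}

lemma dl_pos (k : ℕ) : 0 < dl k := by unfold dl; positivity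

lemma dl_le (k : ℕ) : dl k ≤ 1 / 16 := by
  unfold dl
  rw [div_le_div_iff₀ (by positivity) (by norm_num)]
  have : (0:ℝ) ≤ k := Nat.cast_nonneg k
  linarith

lemma jdl_le (j : Fin k) : 2 * (j : ℕ) * dl k ≤ 1 / 8 := by
  unfold dl
  have h1 : ((j : ℕ) : ℝ) ≤ k := by exact_mod_cast j.2.le
  have h2 : (0:ℝ) ≤ k := Nat.cast_nonneg k
  rw [mul_one_div, div_le_div_iff₀ (by positivity) (by norm_num)]
  linarith

lemma ul_nn (i : Fin k ⊕ Fin k) : 0 ≤ ul k i := by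
  unfold ul
  have := dl_pos k
  rcases i with j | j <;> simp only [Sum.elim_inl, Sum.elim_inr] <;> positivity

lemma ul_le (i : Fin k ⊕ Fin k) : ul k i + dl k ≤ 1 := by
  unfold ul
  have := dl_le k
  rcases i with j | j <;> simp only [Sum.elim_inl, Sum.elim_inr] <;> linarith [jdl_le j]

/-- the one-dimensional factor -/
def Gf (ν : Fin k ⊕ Fin k → ℕ) (t : ℝ) (i : Fin k ⊕ Fin k) (x : ℝ) : ℂ :=
  z (t + x) * (ν i : ℂ) ^ (I * (x : ℂ))

/-- the one-dimensional factor, with conjugation -/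
def Ff (ν : Fin k ⊕ Fin k → ℕ) (t : ℝ) : Fin k ⊕ Fin k → ℝ → ℂ :=
  Sum.elim (fun j x => Gf ν t (Sum.inl j) x) (fun j x => conj (Gf ν t (Sum.inr j) x))

lemma integrand_eq (ν : Fin k ⊕ Fin k → ℕ) (hν : ∀ i, 1 ≤ ν i) (t : ℝ) (γ : Fin k ⊕ Fin k → ℝ) :
    Zg γ t * conj (ch ν γ) = ∏ i, Ff ν t i (γ i) := by
  rw [Zg_fz, Fintype.prod_sum_type, Finset.prod_mul_distrib]
  unfold ch
  rw [map_mul, map_prod, map_prod]
  have h1 : ∀ j : Fin k, conj ((ν (Sum.inl j) : ℂ) ^ (-(I * (γ (Sum.inl j) : ℂ)))) =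
      (ν (Sum.inl j) : ℂ) ^ (I * (γ (Sum.inl j) : ℂ)) := by
    intro j
    rw [conj_natcpow (hν _)]
    congr 1
    simp
  rw [Finset.prod_congr rfl fun j _ => h1 j]
  have h2 : ∏ j : Fin k, Ff ν t (Sum.inl j) (γ (Sum.inl j)) =
      (∏ j : Fin k, z (t + γ (Sum.inl j))) * ∏ j : Fin k, (ν (Sum.inl j) : ℂ) ^ (I * (γ (Sum.inl j) : ℂ)) := by
    rw [← Finset.prod_mul_distrib]
    rfl
  have h3 : ∏ j : Fin k, Ff ν t (Sum.inr j) (γ (Sum.inr j)) =
      (∏ j : Fin k, conj (z (t + γ (Sum.inr j)))) *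
        ∏ j : Fin k, conj ((ν (Sum.inr j) : ℂ) ^ (I * (γ (Sum.inr j) : ℂ))) := by
    rw [← Finset.prod_mul_distrib]
    refine Finset.prod_congr rfl fun j _ => ?_
    rw [← map_mul]
    rfl
  rw [h2, h3]
  ring

/-- the main term of the one-dimensional integral -/
def qf (T : ℝ) (ν : Fin k ⊕ Fin k → ℕ) (i : Fin k ⊕ Fin k) : ℝ := dl k * T * (ν i : ℝ) ^ (-(1 / 2) : ℝ)

def wf (T t : ℝ) (ν : Fin k ⊕ Fin k → ℕ) (i : Fin k ⊕ Fin k) : ℂ :=
  Complex.exp (-(I * (t : ℂ) * (Real.log (ν i) : ℝ))) * (qf T ν i : ℂ)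

def mf (T t : ℝ) (ν : Fin k ⊕ Fin k → ℕ) : Fin k ⊕ Fin k → ℂ :=
  Sum.elim (fun j => wf T t ν (Sum.inl j)) (fun j => conj (wf T t ν (Sum.inr j)))

lemma norm_wf {T t : ℝ} (hT : 0 ≤ T) (ν : Fin k ⊕ Fin k → ℕ) (i : Fin k ⊕ Fin k) :
    ‖wf T t ν i‖ = qf T ν i := by
  unfold wf
  have e : (-(I * (t : ℂ) * (Real.log (ν i) : ℝ))) = ((-(t * Real.log (ν i)) : ℝ) : ℂ) * I := by
    push_cast; ring
  rw [norm_mul, e, Complex.norm_exp_ofReal_mul_I, one_mul, Complex.norm_real, Real.norm_of_nonneg]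
  unfold qf
  have := dl_pos k
  positivity

lemma norm_mf {T t : ℝ} (hT : 0 ≤ T) (ν : Fin k ⊕ Fin k → ℕ) (i : Fin k ⊕ Fin k) :
    ‖mf T t ν i‖ = qf T ν i := by
  unfold mf
  rcases i with j | j
  · simp only [Sum.elim_inl]; exact norm_wf hT ν _
  · simp only [Sum.elim_inr]; rw [Complex.norm_conj]; exact norm_wf hT ν _

lemma prod_qf {T : ℝ} (ν : Fin k ⊕ Fin k → ℕ) :
    ∏ i, qf T ν i = (dl k * T) ^ (2 * k) * wt ν := by
  unfold qf wt
  rw [Finset.prod_mul_distrib, Finset.prod_const, Finset.card_univ, Fintype.card_sum, Fintype.card_fin,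
    Real.finsetProd_rpow _ _ (fun i _ => Nat.cast_nonneg _), two_mul]

lemma prod_mf {T t : ℝ} (ν : Fin k ⊕ Fin k → ℕ) :
    ∏ i, mf T t ν i = (((dl k * T) ^ (2 * k) * wt ν : ℝ) : ℂ) * Complex.exp (I * (t : ℂ) * (thv ν : ℝ)) := by
  have hw : ∀ i, conj (wf T t ν i) = Complex.exp (I * (t : ℂ) * (Real.log (ν i) : ℝ)) * (qf T ν i : ℂ) := by
    intro i
    unfold wf
    rw [map_mul, ← Complex.exp_conj, Complex.conj_ofReal]
    congr 2
    rw [map_neg, map_mul, map_mul, Complex.conj_I, Complex.conj_ofReal, Complex.conj_ofReal]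
    ring
  rw [← prod_qf, Fintype.prod_sum_type]
  have h1 : ∏ j : Fin k, mf T t ν (Sum.inl j) =
      Complex.exp (∑ j : Fin k, (-(I * (t : ℂ) * (Real.log (ν (Sum.inl j)) : ℝ)))) *
        ∏ j : Fin k, (qf T ν (Sum.inl j) : ℂ) := by
    rw [Complex.exp_sum, ← Finset.prod_mul_distrib]
    rfl
  have h2 : ∏ j : Fin k, mf T t ν (Sum.inr j) =
      Complex.exp (∑ j : Fin k, (I * (t : ℂ) * (Real.log (ν (Sum.inr j)) : ℝ))) *
        ∏ j : Fin k, (qf T ν (Sum.inr j) : ℂ) := by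
    rw [Complex.exp_sum, ← Finset.prod_mul_distrib]
    refine Finset.prod_congr rfl fun j _ => ?_
    exact hw _
  rw [h1, h2]
  have h3 : Complex.exp (I * (t : ℂ) * (thv ν : ℝ)) =
      Complex.exp (∑ j : Fin k, (-(I * (t : ℂ) * (Real.log (ν (Sum.inl j)) : ℝ)))) *
      Complex.exp (∑ j : Fin k, (I * (t : ℂ) * (Real.log (ν (Sum.inr j)) : ℝ))) := by
    rw [← Complex.exp_add]
    congr 1
    unfold thv
    rw [Finset.sum_neg_distrib, ← Finset.mul_sum, ← Finset.mul_sum]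
    push_cast
    ring
  rw [h3, Fintype.prod_sum_type]
  push_cast
  ring

/-- the one-dimensional integral -/
lemma one_dim {C T₀ : ℝ} (hC : 0 < C) (hT₀ : 3 ≤ T₀)
    (hM : ∀ (T A B : ℝ) (n : ℕ), T₀ ≤ T → 0 ≤ A → A ≤ B → B ≤ 2 * T → 1 ≤ n → (n : ℝ) ≤ T →
      ‖(∫ u in A..B, z u * (n : ℂ) ^ (I * (u : ℂ))) - ((B - A : ℝ) : ℂ) * (((n : ℝ) ^ (-(1 / 2) : ℝ) : ℝ) : ℂ)‖ ≤
        C * T ^ (1 / 2 : ℝ) * Real.log T)
    {T t : ℝ} {ν : Fin k ⊕ Fin k → ℕ} (hT : T₀ ≤ T) (ht0 : 0 ≤ t) (ht : t ≤ T / 12)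
    (hν : ∀ i, 1 ≤ ν i ∧ (ν i : ℝ) ≤ T ^ (3 / 4 : ℝ)) (i : Fin k ⊕ Fin k) :
    ‖(∫ x in (ul k i * T)..((ul k i + dl k) * T), Gf ν t i x) - wf T t ν i‖ ≤
      (16 * C / dl k * T ^ (-(1 / 16) : ℝ)) * qf T ν i := by
  have hT1 : (1:ℝ) ≤ T := by linarith
  have hT0 : (0:ℝ) < T := by linarith
  have hd := dl_pos k
  have hν1 : (1:ℝ) ≤ ν i := by exact_mod_cast (hν i).1
  have e1 : (∫ x in (ul k i * T)..((ul k i + dl k) * T), Gf ν t i x) =
      Complex.exp (-(I * (t : ℂ) * (Real.log (ν i) : ℝ))) *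
        ∫ u in (t + ul k i * T)..(t + (ul k i + dl k) * T), z u * (ν i : ℂ) ^ (I * (u : ℂ)) :=
    shift_int z (hν i).1 t _ _
  have h1 := hM T (t + ul k i * T) (t + (ul k i + dl k) * T) (ν i) hT
    (by have := mul_nonneg (ul_nn i) hT0.le; linarith)
    (by nlinarith)
    (by have := mul_le_mul_of_nonneg_right (ul_le i) hT0.le; linarith)
    (hν i).1
    ((hν i).2.trans (by
      calc T ^ (3 / 4 : ℝ) ≤ T ^ (1 : ℝ) := Real.rpow_le_rpow_of_exponent_le hT1 (by norm_num)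
        _ = T := Real.rpow_one T))
  have e2 : ((t + (ul k i + dl k) * T - (t + ul k i * T) : ℝ) : ℂ) *
      (((ν i : ℝ) ^ (-(1 / 2) : ℝ) : ℝ) : ℂ) = (qf T ν i : ℂ) := by
    unfold qf; push_cast; ring
  rw [e2] at h1
  have e3 : (∫ x in (ul k i * T)..((ul k i + dl k) * T), Gf ν t i x) - wf T t ν i =
      Complex.exp (-(I * (t : ℂ) * (Real.log (ν i) : ℝ))) *
        ((∫ u in (t + ul k i * T)..(t + (ul k i + dl k) * T), z u * (ν i : ℂ) ^ (I * (u : ℂ))) -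
          (qf T ν i : ℂ)) := by
    rw [e1]; unfold wf; ring
  have e4 : (-(I * (t : ℂ) * (Real.log (ν i) : ℝ))) = ((-(t * Real.log (ν i)) : ℝ) : ℂ) * I := by
    push_cast; ring
  rw [e3, norm_mul, e4, Complex.norm_exp_ofReal_mul_I, one_mul]
  refine h1.trans ?_
  have hlog : Real.log T ≤ 16 * T ^ (1 / 16 : ℝ) := by
    have := Real.log_le_rpow_div hT0.le (show (0:ℝ) < 1 / 16 by norm_num)
    calc Real.log T ≤ T ^ (1 / 16 : ℝ) / (1 / 16) := this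
      _ = 16 * T ^ (1 / 16 : ℝ) := by ring
  have hq : T ^ (-(3 / 8) : ℝ) ≤ (ν i : ℝ) ^ (-(1 / 2) : ℝ) := by
    have h2 : (T ^ (3 / 4 : ℝ)) ^ (-(1 / 2) : ℝ) ≤ (ν i : ℝ) ^ (-(1 / 2) : ℝ) :=
      Real.rpow_le_rpow_of_nonpos (by linarith) (hν i).2 (by norm_num)
    rw [← Real.rpow_mul hT0.le] at h2
    calc T ^ (-(3 / 8) : ℝ) = T ^ ((3 / 4 : ℝ) * (-(1 / 2) : ℝ)) := by norm_num
      _ ≤ _ := h2
  have hkey : T ^ (1 / 2 : ℝ) * T ^ (1 / 16 : ℝ) = T ^ (-(1 / 16) : ℝ) * (T * T ^ (-(3 / 8) : ℝ)) := by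
    rw [← Real.rpow_add hT0, ← Real.rpow_one_add' hT0.le (by norm_num), ← Real.rpow_add hT0]
    norm_num
  calc C * T ^ (1 / 2 : ℝ) * Real.log T ≤ C * T ^ (1 / 2 : ℝ) * (16 * T ^ (1 / 16 : ℝ)) :=
        mul_le_mul_of_nonneg_left hlog (by positivity)
    _ = 16 * C * (T ^ (1 / 2 : ℝ) * T ^ (1 / 16 : ℝ)) := by ring
    _ = 16 * C * (T ^ (-(1 / 16) : ℝ) * (T * T ^ (-(3 / 8) : ℝ))) := by rw [hkey]
    _ ≤ 16 * C * (T ^ (-(1 / 16) : ℝ) * (T * (ν i : ℝ) ^ (-(1 / 2) : ℝ))) := by gcongr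
    _ = (16 * C / dl k * T ^ (-(1 / 16) : ℝ)) * qf T ν i := by
        unfold qf
        field_simp

theorem t_COEF : S_MEAN → S_COEF := by
  rintro ⟨C, T₀, hC, hT₀, hM⟩ k
  have hd := dl_pos k
  set M : ℝ := 16 * C / dl k with hMdef
  have hM0 : 0 < M := by positivity
  refine ⟨M * ((2 * k : ℕ) * (1 + M) ^ (2 * k)) + 1, T₀, by positivity, hT₀, ?_⟩
  intro T t ν hT ht0 ht hν
  have hT1 : (1:ℝ) ≤ T := by linarith
  have hT0 : (0:ℝ) < T := by linarith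
  set η : ℝ := M * T ^ (-(1 / 16) : ℝ) with hη
  have hη0 : 0 ≤ η := by positivity
  have hr1 : T ^ (-(1 / 16) : ℝ) ≤ 1 := Real.rpow_le_one_of_one_le_of_nonpos hT1 (by norm_num)
  have hηM : η ≤ M := by
    calc η ≤ M * 1 := mul_le_mul_of_nonneg_left hr1 hM0.le
      _ = M := mul_one M
  have hwt : 0 ≤ wt ν := by
    unfold wt
    exact Real.rpow_nonneg (Finset.prod_nonneg fun i _ => Nat.cast_nonneg _) _
  have e1 : (∫ γ, Zg γ t * conj (ch ν γ) ∂(mB k T)) =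
      ∏ i, ∫ x in (ul k i * T)..((ul k i + dl k) * T), Ff ν t i x := by
    have h1 : (∫ γ, Zg γ t * conj (ch ν γ) ∂(mB k T)) = ∫ γ, ∏ i, Ff ν t i (γ i) ∂(mB k T) := by
      refine integral_congr_ae (Eventually.of_forall fun γ => ?_)
      exact integrand_eq ν (fun i => (hν i).1) t γ
    rw [h1]
    unfold mB
    rw [integral_fintype_prod_eq_prod]
    refine Finset.prod_congr rfl fun i _ => ?_
    rw [intervalIntegral.integral_of_le (by nlinarith), integral_Icc_eq_integral_Ioc]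
  have hE : ∀ i, ‖(∫ x in (ul k i * T)..((ul k i + dl k) * T), Ff ν t i x) - mf T t ν i‖ ≤ η * qf T ν i := by
    intro i
    have h := one_dim hC hT₀ hM hT ht0 ht hν i
    rcases i with j | j
    · exact h
    · have e : (∫ x in (ul k (Sum.inr j) * T)..((ul k (Sum.inr j) + dl k) * T), Ff ν t (Sum.inr j) x) =
          conj (∫ x in (ul k (Sum.inr j) * T)..((ul k (Sum.inr j) + dl k) * T), Gf ν t (Sum.inr j) x) := by
        rw [intervalIntegral.integral_of_le (by nlinarith), intervalIntegral.integral_of_le (by nlinarith),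
          ← integral_conj]
        rfl
      have e2 : mf T t ν (Sum.inr j) = conj (wf T t ν (Sum.inr j)) := rfl
      rw [e, e2, ← map_sub, Complex.norm_conj]
      exact h
  have h2 := prod_close (Finset.univ : Finset (Fin k ⊕ Fin k))
    (fun i => ∫ x in (ul k i * T)..((ul k i + dl k) * T), Ff ν t i x) (mf T t ν) (qf T ν) η hη0
    (norm_mf hT0.le ν) hE
  rw [prod_mf, prod_qf, Finset.card_univ, Fintype.card_sum, Fintype.card_fin, ← two_mul] at h2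
  rw [e1]
  refine h2.trans ?_
  have h3 := pow_close (2 * k) hη0 hηM
  have h4 : (dl k * T) ^ (2 * k) ≤ T ^ (2 * k) := by
    refine pow_le_pow_left₀ (by positivity) ?_ _
    have := dl_le k
    nlinarith
  calc ((1 + η) ^ (2 * k) - 1) * ((dl k * T) ^ (2 * k) * wt ν)
      ≤ (η * ((2 * k : ℕ) * (1 + M) ^ (2 * k))) * (T ^ (2 * k) * wt ν) := by
        refine mul_le_mul h3 (mul_le_mul_of_nonneg_right h4 hwt) (by positivity) (by positivity)
    _ = (M * ((2 * k : ℕ) * (1 + M) ^ (2 * k))) * (T ^ (-(1 / 16) : ℝ) * T ^ (2 * k) * wt ν) := by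
        rw [hη]; ring
    _ ≤ (M * ((2 * k : ℕ) * (1 + M) ^ (2 * k)) + 1) * (T ^ (-(1 / 16) : ℝ) * T ^ (2 * k) * wt ν) := by
        refine mul_le_mul_of_nonneg_right (by linarith) (by positivity)
    _ = _ := by ring

end

end Pool.Agent.D0H85.SX
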