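import Mathlib

set_option autoImplicit false

/-! Project SX, module COEF, elementary part: products of nearly equal factors. -/

namespace Pool.Agent.D0H85.SX

open Complex MeasureTheory Set
open scoped ComplexConjugate

noncomputable section

lemma prod_close {ι : Type*} [DecidableEq ι] (s : Finset ι) (E m : ι → ℂ) (q : ι → ℝ) (η : ℝ)
    (hη : 0 ≤ η) (hm : ∀ i, ‖m i‖ = q i) (hE : ∀ i, ‖E i - m i‖ ≤ η * q i) :
    ‖∏ i ∈ s, E i - ∏ i ∈ s, m i‖ ≤ ((1 + η) ^ s.card - 1) * ∏ i ∈ s, q i := by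
  have hq : ∀ i, 0 ≤ q i := fun i => by rw [← hm i]; exact norm_nonneg _
  induction s using Finset.induction_on with
  | empty => simp
  | insert a s ha ih =>
    rw [Finset.prod_insert ha, Finset.prod_insert ha, Finset.prod_insert ha,
      Finset.card_insert_of_notMem ha]
    have e1 : E a * ∏ i ∈ s, E i - m a * ∏ i ∈ s, m i =
        E a * (∏ i ∈ s, E i - ∏ i ∈ s, m i) + (E a - m a) * ∏ i ∈ s, m i := by ring
    have hQ : ‖∏ i ∈ s, m i‖ = ∏ i ∈ s, q i := by
      rw [norm_prod]; exact Finset.prod_congr rfl fun i _ => hm i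
    have hQ0 : 0 ≤ ∏ i ∈ s, q i := Finset.prod_nonneg fun i _ => hq i
    have hEa : ‖E a‖ ≤ (1 + η) * q a := by
      calc ‖E a‖ = ‖(E a - m a) + m a‖ := by congr 1; ring
        _ ≤ ‖E a - m a‖ + ‖m a‖ := norm_add_le _ _
        _ ≤ η * q a + q a := by rw [hm a]; linarith [hE a]
        _ = (1 + η) * q a := by ring
    have h0 : 0 ≤ ((1 + η) ^ s.card - 1) * ∏ i ∈ s, q i := (norm_nonneg _).trans ih
    calc ‖E a * ∏ i ∈ s, E i - m a * ∏ i ∈ s, m i‖
        ≤ ‖E a‖ * ‖∏ i ∈ s, E i - ∏ i ∈ s, m i‖ + ‖E a - m a‖ * ‖∏ i ∈ s, m i‖ := by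
          rw [e1]
          refine (norm_add_le _ _).trans ?_
          rw [norm_mul, norm_mul]
      _ ≤ ((1 + η) * q a) * (((1 + η) ^ s.card - 1) * ∏ i ∈ s, q i) + (η * q a) * ∏ i ∈ s, q i := by
          rw [hQ]
          refine add_le_add (mul_le_mul hEa ih (norm_nonneg _) ?_)
            (mul_le_mul_of_nonneg_right (hE a) hQ0)
          exact mul_nonneg (by linarith) (hq a)
      _ = ((1 + η) ^ (s.card + 1) - 1) * (q a * ∏ i ∈ s, q i) := by ring

lemma pow_close (n : ℕ) {η M : ℝ} (hη : 0 ≤ η) (hM : η ≤ M) :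
    (1 + η) ^ n - 1 ≤ η * (n * (1 + M) ^ n) := by
  induction n with
  | zero => simp
  | succ n ih =>
    have hM0 : 0 ≤ M := hη.trans hM
    have h1 : (1:ℝ) ≤ (1 + M) ^ (n + 1) := one_le_pow₀ (by linarith)
    have h2 : (0:ℝ) ≤ (1 + M) ^ n := by positivity
    have h3 : (1 + η) * (η * (n * (1 + M) ^ n)) ≤ (1 + M) * (η * (n * (1 + M) ^ n)) :=
      mul_le_mul_of_nonneg_right (by linarith) (by positivity)
    calc (1 + η) ^ (n + 1) - 1 = (1 + η) * ((1 + η) ^ n - 1) + η := by ring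
      _ ≤ (1 + η) * (η * (n * (1 + M) ^ n)) + η := by
          have := mul_le_mul_of_nonneg_left ih (by linarith : 0 ≤ 1 + η)
          linarith
      _ ≤ (1 + M) * (η * (n * (1 + M) ^ n)) + η * (1 + M) ^ (n + 1) := by
          have : η ≤ η * (1 + M) ^ (n + 1) := by nlinarith
          linarith
      _ = η * (((n + 1 : ℕ) : ℝ) * (1 + M) ^ (n + 1)) := by push_cast; ring

/-- conjugates of characters -/
lemma conj_natcpow {n : ℕ} (hn : 1 ≤ n) (s : ℂ) : conj ((n : ℂ) ^ s) = (n : ℂ) ^ (conj s) := by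
  have h0 : (n : ℂ) ≠ 0 := by exact_mod_cast (by omega : n ≠ 0)
  rw [Complex.cpow_def_of_ne_zero h0, Complex.cpow_def_of_ne_zero h0, ← Complex.exp_conj, map_mul,
    ← Complex.natCast_log, Complex.conj_ofReal]

lemma natcpow_I {n : ℕ} (hn : 1 ≤ n) (x : ℝ) :
    (n : ℂ) ^ (I * (x : ℂ)) = Complex.exp (I * (x : ℂ) * (Real.log n : ℝ)) := by
  have h0 : (n : ℂ) ≠ 0 := by exact_mod_cast (by omega : n ≠ 0)
  rw [Complex.cpow_def_of_ne_zero h0, ← Complex.natCast_log]
  congr 1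
  ring

/-- shifting a twisted integral -/
lemma shift_int (z : ℝ → ℂ) {n : ℕ} (hn : 1 ≤ n) (t a b : ℝ) :
    (∫ x in a..b, z (t + x) * (n : ℂ) ^ (I * (x : ℂ))) =
      Complex.exp (-(I * (t : ℂ) * (Real.log n : ℝ))) *
        ∫ u in (t + a)..(t + b), z u * (n : ℂ) ^ (I * (u : ℂ)) := by
  rw [← intervalIntegral.integral_comp_add_left (fun u => z u * (n : ℂ) ^ (I * (u : ℂ))) t,
    ← intervalIntegral.integral_const_mul]
  refine intervalIntegral.integral_congr fun x _ => ?_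
  rw [natcpow_I hn, natcpow_I hn]
  have : Complex.exp (I * (x : ℂ) * (Real.log n : ℝ)) =
      Complex.exp (-(I * (t : ℂ) * (Real.log n : ℝ))) *
        Complex.exp (I * ((t + x : ℝ) : ℂ) * (Real.log n : ℝ)) := by
    rw [← Complex.exp_add]
    congr 1
    push_cast
    ring
  rw [this]
  ring

end

end Pool.Agent.D0H85.SX
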